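import Pool.Agent.MWK.Stmts

/-!
# Row DAG of block MWK (MP_23468a_al)
-/

namespace Pool.Agent.MWK.H45

open Pool.Agent.Helper14_MV Pool.Agent.Helper2_MV
open Pool.Agent.MWK

theorem dag : DagStmt := by
  intro m u v h k
  induction k with
  | zero => intro _ x; exact Iff.rfl
  | succ k ih =>
    intro hk x
    have ihk := ih (by omega)
    have hle : k ≤ m := by omega
    constructor
    · intro hd
      rcases hd with hd | ⟨y, h1, h2⟩
      · exact Or.inl ((h.count_one x).1 hd)
      · have h3 : Dp k v y := (ihk y).1 h1
        have h4 : Dp m v y := Dp.le hle h3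
        exact Or.inr ⟨y, h3, (h.pre_count_one (show FF m v y x 0 from h4)
          (show FF m v y x 1 from h4)).1 h2⟩
    · intro hd
      rcases hd with hd | ⟨y, h1, h2⟩
      · exact Or.inl ((h.count_one x).2 hd)
      · have h4 : Dp m v y := Dp.le hle h1
        exact Or.inr ⟨y, (ihk y).2 h1, (h.pre_count_one (show FF m v y x 0 from h4)
          (show FF m v y x 1 from h4)).2 h2⟩

end Pool.Agent.MWK.H45
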