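import Pool.Agent.MWK.Stmts

/-!
# Row DG1 of block MWK (MP_23468a_al)
-/

namespace Pool.Agent.MWK.H45

open Pool.Agent.Helper14_MV Pool.Agent.Helper2_MV
open Pool.Agent.MWK

theorem flatMap_rep (c : ℕ) (u : List ℕ) :
    u.flatMap (fun d => if d = c then [0] else []) = List.replicate (u.count c) 0 := by
  induction u with
  | nil => rfl
  | cons a u ih =>
    rw [List.flatMap_cons, ih, List.count_cons]
    by_cases h : a = c
    · simp [h, List.replicate_succ]
    · simp [h]

theorem flatMap_one (w : List ℕ) : ([0] : List ℕ).flatMap (fun _ => w) = w := by simp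

theorem dg1 : Dg1Stmt := by
  intro θ hθ u v c huv hcu hcv w w'
  have h1 : RR θ (List.replicate (u.count c) 0) [] := by
    have h := huv.sub (fun d => if d = c then [0] else [])
    rw [flatMap_rep, flatMap_rep, List.count_eq_zero.2 hcv] at h
    exact h
  have hk : 0 < u.count c := List.count_pos_iff.2 hcu
  have h2 : RR θ [0, 0] [0, 0, 0] := by
    have h := hθ.g.sub (fun d => if d = 0 then [0] else [])
    exact h
  have h3 : RR θ (List.replicate (u.count c) 0 ++ List.replicate (u.count c) 0)
      (List.replicate (u.count c) 0 ++ List.replicate (u.count c) 0 ++ [0]) := by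
    have h := (RR.refl (β := θ) (List.replicate (2 * u.count c - 2) 0)).append h2
    have e1 : List.replicate (2 * u.count c - 2) 0 ++ [0, 0] =
        List.replicate (u.count c) 0 ++ List.replicate (u.count c) (0 : ℕ) := by
      rw [show ([0, 0] : List ℕ) = List.replicate 2 0 from rfl, ← List.replicate_add,
        ← List.replicate_add]
      congr 1
      omega
    have e2 : List.replicate (2 * u.count c - 2) 0 ++ [0, 0, 0] =
        List.replicate (u.count c) 0 ++ List.replicate (u.count c) (0 : ℕ) ++ [0] := by
      rw [← e1, List.append_assoc]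
      rfl
    rw [e1, e2] at h
    exact h
  have h4 : RR θ (List.replicate (u.count c) 0 ++ List.replicate (u.count c) 0) [] :=
    h1.append h1
  have h5 : RR θ (List.replicate (u.count c) 0 ++ List.replicate (u.count c) 0 ++ [0]) [0] :=
    h4.append (RR.refl [0])
  have h6 : RR θ [0] [] := θ.trans h5.symm (θ.trans h3.symm h4)
  have h7 : ∀ w : List ℕ, RR θ w [] := by
    intro w
    have h := h6.sub (fun _ => w)
    rw [flatMap_one] at h
    exact h
  exact θ.trans (h7 w) (h7 w').symm

end Pool.Agent.MWK.H45
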