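import Pool.Agent.MWK.StmtsN

/-!
# Row NMD of block MWK, part N (MP_23468a_al)
-/

namespace Pool.Agent.MWK.H45

open Pool.Agent.Helper14_MV Pool.Agent.Helper2_MV
open Pool.Agent.MWF (Ap gaml)
open Pool.Agent.MWK

theorem three (w : List ℕ) (hw : ∀ c ∈ w, c = 1 ∨ c = 2 ∨ c = 3) (a b : ℕ)
    (h3 : w.filter (fun c => decide (c ≠ 3)) = 1 :: 2 :: List.replicate a 1)
    (h2 : w.filter (fun c => decide (c ≠ 2)) = 1 :: 3 :: List.replicate b 1)
    (h1 : w.filter (fun c => decide (c ≠ 1)) = [2, 3]) :
    w = 1 :: 2 :: 3 :: List.replicate b 1 := by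
  match w, hw, h3, h2, h1 with
  | [], _, _, _, h1 => simp at h1
  | c :: w4, hw, h3, h2, h1 =>
    have hw4 : ∀ c ∈ w4, c = 1 ∨ c = 2 ∨ c = 3 := fun c hc => hw c (List.mem_cons_of_mem _ hc)
    rcases hw c List.mem_cons_self with rfl | rfl | rfl
    · simp only [List.filter_cons] at h3 h2 h1
      simp only [ne_eq, OfNat.one_ne_ofNat, not_false_eq_true, decide_true, if_true,
        List.cons.injEq, true_and, not_true_eq_false, decide_false, Bool.false_eq_true,
        if_false] at h3 h2 h1
      match w4, hw4, h3, h2, h1 with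
      | [], _, _, _, h1 => simp at h1
      | d :: w5, hw4, h3, h2, h1 =>
        have hw5 : ∀ c ∈ w5, c = 1 ∨ c = 2 ∨ c = 3 :=
          fun c hc => hw4 c (List.mem_cons_of_mem _ hc)
        rcases hw4 d List.mem_cons_self with rfl | rfl | rfl
        · simp [List.filter_cons] at h3
        · simp [List.filter_cons] at h3 h2 h1
          match w5, hw5, h3, h2, h1 with
          | [], _, _, _, h1 => simp at h1
          | e :: w6, hw5, h3, h2, h1 =>
            have hw6 : ∀ c ∈ w6, c = 1 ∨ c = 2 ∨ c = 3 :=
              fun c hc => hw5 c (List.mem_cons_of_mem _ hc)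
            rcases hw5 e List.mem_cons_self with rfl | rfl | rfl
            · simp [List.filter_cons] at h2
            · simp [List.filter_cons] at h1
            · simp [List.filter_cons] at h2 h1
              have h7 : w6.filter (fun c => !decide (c = 2)) = w6 := by
                rw [List.filter_eq_self]
                intro c hc
                have := h1 c hc
                subst this
                decide
              rw [h7] at h2
              rw [h2]
        · simp [List.filter_cons] at h1
    · simp [List.filter_cons] at h3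
    · simp [List.filter_cons] at h2

theorem rep_rr {β : FIC} (hpow : Pool.Agent.MWF.PowStmt) (h : RR β [0, 0] [0, 0, 0]) (i : ℕ)
    (hi : 2 ≤ i) : RR β (List.replicate i 0) [0, 0] := hpow β h 0 i 2 hi (le_refl 2)

theorem nmd (hpow : Pool.Agent.MWF.PowStmt) (hctt : Pool.Agent.MWF.CttStmt)
    (hsim : Pool.Agent.MWF.SimStmt) (hnty : NtyStmt) : NmdStmt := by
  intro β hG hE w w' h hPD
  obtain ⟨hlw, ⟨k, hk, hf1⟩, ⟨l, hl, hf0⟩⟩ := hPD
  have hc' : ∀ c ∈ w', c = 0 ∨ c = 1 ∨ c = 2 ∨ c = 3 :=
    fun c hc => hlw c ((hctt β hG.ap w w' h c).2 hc)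
  have r1 : RR β (0 :: 2 :: (List.replicate k 0 ++ [3])) (w'.filter (fun c => decide (c ≠ 1))) := by
    have := h.filter (fun c => decide (c ≠ 1))
    rw [hf1] at this
    exact this
  -- filter `c ≠ 3`
  obtain ⟨a, ha, hwa⟩ : ∃ a, 1 ≤ a ∧ (w'.filter (fun c => decide (c ≠ 1))).filter
      (fun c => decide (c ≠ 3)) = 0 :: 2 :: List.replicate a 0 := by
    have r2 := r1.filter (fun c => decide (c ≠ 3))
    have e : (0 :: 2 :: (List.replicate k 0 ++ [3])).filter (fun c => decide (c ≠ 3)) =
        0 :: 2 :: List.replicate k 0 := by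
      simp [List.filter_cons, List.filter_append]
    rw [e] at r2
    exact hnty β hG 0 2 (by decide) k _ hk r2
  have hc3 : (w'.filter (fun c => decide (c ≠ 1))).count 3 = 1 := by
    refine hsim β hG.ap _ _ r1 3 ?_
    simp [List.count_cons, List.count_append, List.count_replicate]
  obtain ⟨A, B, hAB, hA3⟩ := List.eq_append_cons_of_mem
    (List.count_pos_iff.1 (by omega : 0 < (w'.filter (fun c => decide (c ≠ 1))).count 3))
  have hB3 : 3 ∉ B := by
    intro hm
    have h1 := List.count_pos_iff.2 hm
    rw [hAB, List.count_append, List.count_cons] at hc3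
    simp at hc3
    omega
  have fA : A.filter (fun c => decide (c ≠ 3)) = A := by
    rw [List.filter_eq_self]
    intro c hc
    rw [decide_eq_true_eq]
    rintro rfl
    exact hA3 hc
  have fB : B.filter (fun c => decide (c ≠ 3)) = B := by
    rw [List.filter_eq_self]
    intro c hc
    rw [decide_eq_true_eq]
    rintro rfl
    exact hB3 hc
  have hABe : A ++ B = 0 :: 2 :: List.replicate a 0 := by
    rw [hAB, List.filter_append, List.filter_cons, fA, fB] at hwa
    simpa using hwa
  have hBnil : B = [] := by
    by_contra hne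
    apply hE
    -- letters of `A ++ B` are 0 or 2
    have hlet : ∀ c ∈ A ++ B, c = 0 ∨ c = 2 := by
      intro c hc
      rw [hABe] at hc
      rcases List.mem_cons.1 hc with h1 | h1
      · exact Or.inl h1
      · rcases List.mem_cons.1 h1 with h2 | h2
        · exact Or.inr h2
        · exact Or.inl (List.eq_of_mem_replicate h2)
    have fA2 : A.filter (fun c => decide (c ≠ 2)) =
        List.replicate (A.filter (fun c => decide (c ≠ 2))).length 0 := by
      rw [List.eq_replicate_iff]
      refine ⟨rfl, fun c hc => ?_⟩
      rw [List.mem_filter, decide_eq_true_eq] at hc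
      exact (hlet c (List.mem_append_left _ hc.1)).resolve_right hc.2
    have fB2 : B.filter (fun c => decide (c ≠ 2)) =
        List.replicate (B.filter (fun c => decide (c ≠ 2))).length 0 := by
      rw [List.eq_replicate_iff]
      refine ⟨rfl, fun c hc => ?_⟩
      rw [List.mem_filter, decide_eq_true_eq] at hc
      exact (hlet c (List.mem_append_right _ hc.1)).resolve_right hc.2
    have h0B : 0 ∈ B := by
      have h1 : (A ++ B).getLast? = some 0 := by
        rw [hABe, show (0 :: 2 :: List.replicate a 0 : List ℕ) =
          [0, 2] ++ List.replicate a 0 from rfl]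
        rw [List.getLast?_append_of_ne_nil _ (by
          intro h0
          have := congrArg List.length h0
          simp at this
          omega)]
        rw [List.getLast?_replicate, if_neg (by omega)]
      rw [List.getLast?_append_of_ne_nil _ hne] at h1
      exact List.mem_of_getLast? h1
    have hc1 : 1 ≤ (B.filter (fun c => decide (c ≠ 2))).length := by
      have : 0 ∈ B.filter (fun c => decide (c ≠ 2)) := by
        rw [List.mem_filter]
        exact ⟨h0B, by decide⟩
      exact List.length_pos_of_mem this
    have r3 := r1.filter (fun c => decide (c ≠ 2))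
    have e2 : (A ++ 3 :: B).filter (fun c => decide (c ≠ 2)) =
        A.filter (fun c => decide (c ≠ 2)) ++ 3 :: B.filter (fun c => decide (c ≠ 2)) := by
      rw [List.filter_append, List.filter_cons]
      rfl
    rw [hAB, e2, fA2, fB2] at r3
    have e : (0 :: 2 :: (List.replicate k 0 ++ [3])).filter (fun c => decide (c ≠ 2)) =
        List.replicate (k + 1) 0 ++ [3] := by
      simp [List.filter_cons, List.filter_append, List.replicate_succ]
    rw [e] at r3
    generalize (A.filter (fun c => decide (c ≠ 2))).length = b at r3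
    generalize (B.filter (fun c => decide (c ≠ 2))).length = c at r3 hc1
    have r4 : RR β (List.replicate (k + 1) 0 ++ [3]) (List.replicate b 0 ++ 3 :: List.replicate c 0) :=
      r3
    have r5 := r4.sub (fun d => if d = 3 then [1] else [0])
    have e0 : ∀ m : ℕ, (List.replicate m 0).flatMap (fun d => if d = 3 then [1] else [0]) =
        List.replicate m 0 := by
      intro m
      induction m with
      | zero => rfl
      | succ m ih => rw [List.replicate_succ, List.flatMap_cons, ih]; rfl
    rw [List.flatMap_append, List.flatMap_append, List.flatMap_cons, List.flatMap_cons, e0, e0,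
      e0] at r5
    have r6 : RR β (List.replicate (k + 1) 0 ++ [1])
        (List.replicate b 0 ++ ([1] ++ List.replicate c 0)) := r5
    have hz : RR β [0, 0] [0, 0, 0] := hG.ap.sq
    have r7 : RR β ([0, 0] ++ (List.replicate (k + 1) 0 ++ [1]))
        ([0, 0] ++ (List.replicate b 0 ++ ([1] ++ List.replicate c 0))) :=
      (RR.refl [0, 0]).append r6
    have r8 : RR β ([0, 0] ++ (List.replicate (k + 1) 0 ++ [1])) ([0, 0] ++ [1]) := by
      rw [← List.append_assoc]
      refine RR.append ?_ (RR.refl [1])
      rw [show ([0, 0] : List ℕ) = List.replicate 2 0 from rfl, ← List.replicate_add]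
      exact hpow β hz 0 _ 2 (by omega) (le_refl 2)
    have r9 : RR β ([0, 0] ++ (List.replicate b 0 ++ ([1] ++ List.replicate c 0)))
        ([0, 0] ++ ([1] ++ List.replicate c 0)) := by
      rw [← List.append_assoc]
      refine RR.append ?_ (RR.refl _)
      rw [show ([0, 0] : List ℕ) = List.replicate 2 0 from rfl, ← List.replicate_add]
      exact hpow β hz 0 _ 2 (by omega) (le_refl 2)
    have r10 : RR β ([0, 0] ++ ([1] ++ List.replicate c 0)) [0, 0, 1, 0] := by
      by_cases hc2 : c = 1
      · rw [hc2]
        exact RR.refl _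
      · have h1 : RR β ([0, 0, 1] ++ List.replicate c 0) ([0, 0, 1] ++ [0, 0]) :=
          (RR.refl [0, 0, 1]).append (hpow β hz 0 c 2 (by omega) (le_refl 2))
        have h2 : RR β ([0] ++ [0, 1, 0]) ([0] ++ [0, 1, 0, 0]) := (RR.refl [0]).append hG.gm
        exact β.trans h1 h2.symm
    exact β.trans r8.symm (β.trans r7 (β.trans r9 r10))
  have hw1 : w'.filter (fun c => decide (c ≠ 1)) = 0 :: 2 :: (List.replicate a 0 ++ [3]) := by
    rw [hBnil, List.append_nil] at hABe
    rw [hAB, hBnil, hABe]
    rfl
  refine ⟨hc', ⟨a, ha, hw1⟩, ?_⟩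
  -- part (2)
  have s1 : RR β (1 :: 2 :: 3 :: List.replicate l 1) (w'.filter (fun c => decide (c ≠ 0))) := by
    have := h.filter (fun c => decide (c ≠ 0))
    rw [hf0] at this
    exact this
  obtain ⟨p, hp, hwp⟩ : ∃ p, 1 ≤ p ∧ (w'.filter (fun c => decide (c ≠ 0))).filter
      (fun c => decide (c ≠ 3)) = 1 :: 2 :: List.replicate p 1 := by
    have r2 := s1.filter (fun c => decide (c ≠ 3))
    have e : (1 :: 2 :: 3 :: List.replicate l 1).filter (fun c => decide (c ≠ 3)) =
        1 :: 2 :: List.replicate l 1 := by
      simp [List.filter_cons]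
    rw [e] at r2
    exact hnty β hG 1 2 (by decide) l _ hl r2
  obtain ⟨q, hq, hwq⟩ : ∃ q, 1 ≤ q ∧ (w'.filter (fun c => decide (c ≠ 0))).filter
      (fun c => decide (c ≠ 2)) = 1 :: 3 :: List.replicate q 1 := by
    have r2 := s1.filter (fun c => decide (c ≠ 2))
    have e : (1 :: 2 :: 3 :: List.replicate l 1).filter (fun c => decide (c ≠ 2)) =
        1 :: 3 :: List.replicate l 1 := by
      simp [List.filter_cons]
    rw [e] at r2
    exact hnty β hG 1 3 (by decide) l _ hl r2
  have hw01 : (w'.filter (fun c => decide (c ≠ 0))).filter (fun c => decide (c ≠ 1)) = [2, 3] := by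
    rw [List.filter_filter]
    have e1 : w'.filter (fun a => decide (a ≠ 1) && decide (a ≠ 0)) =
        (w'.filter (fun c => decide (c ≠ 1))).filter (fun c => decide (c ≠ 0)) := by
      rw [List.filter_filter]
      refine List.filter_congr (fun c _ => ?_)
      rw [Bool.and_comm]
    rw [e1, hw1]
    simp [List.filter_cons, List.filter_append]
  refine ⟨q, hq, three _ ?_ p q hwp hwq hw01⟩
  intro c hc
  rw [List.mem_filter, decide_eq_true_eq] at hc
  exact (hc' c hc.1).resolve_left hc.2

end Pool.Agent.MWK.H45
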